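import Pool.Agent.W890.SF.Stm

/-!
# BAS: basic facts on `PU`, `PG`
-/

set_option autoImplicit false

namespace Pool.Agent.W976.SAM

open Finset Pool.Agent.W890.SF

variable {ι : Type} [DecidableEq ι]

theorem wt_sum (q : ι → ℝ) (S : Finset ι) : ∑ ω ∈ S.powerset, Wt q S ω = 1 := by
  have h := Finset.prod_add q (fun i => 1 - q i) S
  rw [Finset.prod_congr rfl fun i _ => show q i + (1 - q i) = 1 by ring, Finset.prod_const_one] at h
  exact h.symm

theorem wt_nonneg {q : ι → ℝ} {S ω : Finset ι} (h : ∀ i ∈ S, 0 ≤ q i ∧ q i < 1) (hω : ω ⊆ S) :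
    0 ≤ Wt q S ω := by
  refine mul_nonneg (Finset.prod_nonneg fun i hi => (h i (hω hi)).1)
    (Finset.prod_nonneg fun i hi => ?_)
  have := (h i (Finset.sdiff_subset hi)).2
  linarith

theorem wt_empty {q : ι → ℝ} {S : Finset ι} (h : ∀ i ∈ S, 0 ≤ q i ∧ q i < 1) :
    0 < Wt q S ∅ := by
  unfold Wt
  rw [Finset.prod_empty, one_mul, Finset.sdiff_empty]
  refine Finset.prod_pos fun i hi => ?_
  have := (h i hi).2
  linarith

theorem wt_mean (b q : ι → ℝ) (S : Finset ι) :
    ∑ ω ∈ S.powerset, Wt q S ω * ∑ i ∈ ω, b i = ∑ i ∈ S, b i * q i := by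
  induction S using Finset.induction_on with
  | empty => simp [Wt]
  | insert a s ha ih =>
    rw [Finset.sum_powerset_insert ha, Finset.sum_insert ha, ← ih]
    have e1 : ∀ ω ∈ s.powerset, Wt q (insert a s) ω * ∑ i ∈ ω, b i =
        (1 - q a) * (Wt q s ω * ∑ i ∈ ω, b i) := by
      intro ω hω
      have hω' := Finset.mem_powerset.1 hω
      have haω : a ∉ ω := fun h => ha (hω' h)
      unfold Wt
      rw [Finset.insert_sdiff_of_notMem _ haω, Finset.prod_insert fun h => ha (Finset.sdiff_subset h)]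
      ring
    have e2 : ∀ ω ∈ s.powerset, Wt q (insert a s) (insert a ω) * ∑ i ∈ insert a ω, b i =
        q a * b a * Wt q s ω + q a * (Wt q s ω * ∑ i ∈ ω, b i) := by
      intro ω hω
      have hω' := Finset.mem_powerset.1 hω
      have haω : a ∉ ω := fun h => ha (hω' h)
      have e3 : insert a s \ insert a ω = s \ ω := by
        ext i
        simp only [Finset.mem_sdiff, Finset.mem_insert]
        constructor
        · rintro ⟨rfl | h1, h2⟩
          · exact absurd (Or.inl rfl) h2
          · exact ⟨h1, fun h => h2 (Or.inr h)⟩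
        · rintro ⟨h1, h2⟩
          refine ⟨Or.inr h1, ?_⟩
          rintro (rfl | h)
          · exact ha h1
          · exact h2 h
      unfold Wt
      rw [e3, Finset.prod_insert haω, Finset.sum_insert haω]
      ring
    rw [Finset.sum_congr rfl e1, Finset.sum_congr rfl e2, Finset.sum_add_distrib,
      ← Finset.mul_sum, ← Finset.mul_sum, ← Finset.mul_sum, wt_sum]
    ring

theorem bas : S_BAS := by
  intro ι _ b q c S hc h
  have hq : ∀ i ∈ S, 0 ≤ q i ∧ q i < 1 := fun i hi => (h i hi).2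
  have hB : ∀ ω ∈ S.powerset, 0 ≤ ∑ i ∈ ω, b i := fun ω hω =>
    Finset.sum_nonneg fun i hi => (h i (Finset.mem_powerset.1 hω hi)).1.le
  have hW : ∀ ω ∈ S.powerset, 0 ≤ Wt q S ω := fun ω hω =>
    wt_nonneg hq (Finset.mem_powerset.1 hω)
  refine ⟨?_, ?_, ?_, ?_, ?_⟩
  · refine Finset.sum_pos' (fun ω hω => ?_) ⟨∅, Finset.empty_mem_powerset S, ?_⟩
    · split_ifs
      · exact hW ω hω
      · exact le_rfl
    · rw [Finset.sum_empty, if_pos hc]
      exact wt_empty hq
  · rw [← wt_sum q S]
    refine Finset.sum_le_sum fun ω hω => ?_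
    split_ifs
    · exact le_rfl
    · exact hW ω hω
  · unfold PU PG
    rw [Finset.mul_sum]
    refine Finset.sum_le_sum fun ω hω => ?_
    have h1 := hB ω hω
    have h2 := hW ω hω
    split_ifs
    · nlinarith [mul_nonneg h2 h1]
    · rw [mul_zero]
  · have e1 : c - ∑ i ∈ S, b i * q i = ∑ ω ∈ S.powerset, Wt q S ω * (c - ∑ i ∈ ω, b i) := by
      simp only [mul_sub]
      rw [Finset.sum_sub_distrib, ← Finset.sum_mul, wt_sum, one_mul, wt_mean]
    rw [e1]
    refine Finset.sum_le_sum fun ω hω => ?_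
    have h2 := hW ω hω
    split_ifs with h3
    · exact le_rfl
    · exact mul_nonpos_of_nonneg_of_nonpos h2 (by linarith)
  · refine Finset.sum_pos' (fun ω hω => ?_) ⟨∅, Finset.empty_mem_powerset S, ?_⟩
    · split_ifs with h3
      · exact mul_nonneg (hW ω hω) (by linarith)
      · exact le_rfl
    · rw [Finset.sum_empty, if_pos hc]
      exact mul_pos (wt_empty hq) (by linarith)

end Pool.Agent.W976.SAM
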